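import Pool.Agent.V8H63.AP.Doob
import Pool.Agent.V8H55.AP.Stm

/-!
# The Carleson embedding for sparse families
-/

set_option autoImplicit false

open Finset

namespace Pool.Agent.V8H63.AP

open Pool.Agent.V8H55.AP

/-- The cell of `n` in the grid `θ` at scale `s`. -/
def cell (θ : ℤ) (s : ℕ) (n : ℤ) : ℤ := (n - θ * 4 ^ s) / (3 * 2 ^ s)

theorem cell_succ (θ : ℤ) (s : ℕ) (n : ℤ) :
    cell θ (s + 1) n = (cell θ s n - θ * 2 ^ s) / 2 := by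
  unfold cell
  have h0 : (0 : ℤ) < 3 * 2 ^ s := by positivity
  have h1 : n - θ * 4 ^ (s + 1) = (n - θ * 4 ^ s) - (θ * 2 ^ s) * (3 * 2 ^ s) := by
    have : (4 : ℤ) ^ s = 2 ^ s * 2 ^ s := by
      rw [← mul_pow]; norm_num
    rw [pow_succ, this]; ring
  have h2 : (3 : ℤ) * 2 ^ (s + 1) = (3 * 2 ^ s) * 2 := by rw [pow_succ]; ring
  rw [h1, h2, ← Int.ediv_ediv_of_nonneg h0.le, Int.sub_mul_ediv_right _ _ h0.ne']

/-- The grid of `J s j`. -/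
theorem exists_grid (s : ℕ) (j : ℤ) : ∃ θ : Fin 3, ∃ c : ℤ, j - 1 = (θ : ℤ) * 2 ^ s + 3 * c := by
  have h2 : (2 : ℤ) ^ s % 3 = 1 ∨ (2 : ℤ) ^ s % 3 = 2 := by
    induction s with
    | zero => left; rfl
    | succ s ih =>
      rw [pow_succ]
      rcases ih with h | h <;> omega
  obtain ⟨a, ha⟩ : ∃ a : ℤ, a = (2 : ℤ) ^ s := ⟨_, rfl⟩
  rw [← ha] at h2 ⊢
  have h3 : (j - 1) % 3 = 0 ∨ (j - 1) % 3 = 1 ∨ (j - 1) % 3 = 2 := by omega
  rcases h2 with h2 | h2 <;> rcases h3 with h3 | h3 | h3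
  · exact ⟨0, (j - 1) / 3, by simp; omega⟩
  · exact ⟨1, (j - 1 - a) / 3, by simp; omega⟩
  · exact ⟨2, (j - 1 - 2 * a) / 3, by simp; omega⟩
  · exact ⟨0, (j - 1) / 3, by simp; omega⟩
  · exact ⟨2, (j - 1 - 2 * a) / 3, by simp; omega⟩
  · exact ⟨1, (j - 1 - a) / 3, by simp; omega⟩

theorem mem_J (s : ℕ) (j : ℤ) (θ c : ℤ) (h : j - 1 = θ * 2 ^ s + 3 * c) (n : ℤ) :
    n ∈ J s j ↔ cell θ s n = c := by
  unfold J cell
  rw [mem_Ico]
  have h0 : (0 : ℤ) < 3 * 2 ^ s := by positivity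
  have h4 : (4 : ℤ) ^ s = 2 ^ s * 2 ^ s := by
    rw [← mul_pow]; norm_num
  have e1 : (j - 1) * 2 ^ s = θ * 4 ^ s + c * (3 * 2 ^ s) := by
    rw [h, h4]; ring
  have e2 : (j + 2) * 2 ^ s = θ * 4 ^ s + (c + 1) * (3 * 2 ^ s) := by
    have : j + 2 = θ * 2 ^ s + 3 * c + 3 := by linarith
    rw [this, h4]; ring
  rw [e1, e2]
  constructor
  · rintro ⟨h5, h6⟩
    apply le_antisymm
    · apply Int.le_of_lt_add_one
      rw [Int.ediv_lt_iff_lt_mul h0]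
      linarith
    · rw [Int.le_ediv_iff_mul_le h0]
      linarith
  · intro h5
    have h6 := Int.ediv_mul_le (n - θ * 4 ^ s) h0.ne'
    have h7 := Int.lt_ediv_add_one_mul_self (n - θ * 4 ^ s) h0
    rw [h5] at h6 h7
    constructor <;> linarith

theorem I_sub_J (s : ℕ) (j : ℤ) : I s j ⊆ J s j := by
  intro n hn
  unfold I at hn
  unfold J
  rw [mem_Ico] at hn ⊢
  have h0 : (0 : ℤ) < 2 ^ s := by positivity
  constructor <;> nlinarith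

theorem carl : Carl := by
  intro q hq
  refine ⟨3 * (2 * (2 ^ (q - 1)) ^ q / (q - 1)), ?_, ?_⟩
  · have : 0 < q - 1 := by linarith
    positivity
  intro μ h hμ hh F E hS U hU
  classical
  set Ω : Finset ℤ := U ∪ F.biUnion (fun k => J k.1 k.2) with hΩ
  have hJ : ∀ k ∈ F, J k.1 k.2 ⊆ Ω := fun k hk =>
    (subset_biUnion_of_mem (fun k : ℕ × ℤ => J k.1 k.2) hk).trans subset_union_right
  have hE : ∀ k ∈ F, E k ⊆ Ω := fun k hk =>
    ((hS.sub k hk).trans (I_sub_J _ _)).trans (hJ k hk)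
  set N := F.sup (fun k => k.1) with hN
  have key : ∀ θ : Fin 3, ∃ m : ℤ → ℝ, (∀ n, 0 ≤ m n) ∧
      (∀ n, ∀ s ≤ N, av Ω μ h (cell θ s) n ≤ m n) ∧
      ∑ n ∈ Ω, m n ^ q * μ n ≤ 2 * (2 ^ (q - 1)) ^ q / (q - 1) * ∑ n ∈ Ω, h n ^ q * μ n := by
    intro θ
    exact doob q hq Ω μ h hμ hh (fun s => cell θ s) (fun s c => (c - (θ : ℤ) * 2 ^ s) / 2)
      (fun s n => cell_succ θ s n) N
  choose m hm0 hm1 hm2 using key
  have e1 : ∑ n ∈ Ω, h n ^ q * μ n = ∑ n ∈ U, h n ^ q * μ n := by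
    symm
    apply sum_subset subset_union_left
    intro n _ hn
    rw [hU n hn, Real.zero_rpow (by linarith), zero_mul]
  have e2 : ∀ k ∈ F, ((∑ n ∈ J k.1 k.2, h n * μ n) / ∑ n ∈ J k.1 k.2, μ n) ^ q *
      ∑ n ∈ E k, μ n ≤ ∑ n ∈ E k, (∑ θ : Fin 3, m θ n ^ q) * μ n := by
    intro k hk
    obtain ⟨θ, c, hc⟩ := exists_grid k.1 k.2
    rw [mul_sum]
    apply sum_le_sum
    intro n hn
    apply mul_le_mul_of_nonneg_right _ (hμ n).le
    have hnJ : n ∈ J k.1 k.2 := I_sub_J _ _ (hS.sub k hk hn)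
    have hcell := (mem_J k.1 k.2 θ c hc n).1 hnJ
    have hf : Ω.filter (fun i => cell θ k.1 i = cell θ k.1 n) = J k.1 k.2 := by
      ext i
      rw [mem_filter, hcell, ← mem_J k.1 k.2 θ c hc i]
      exact ⟨fun a => a.2, fun a => ⟨hJ k hk a, a⟩⟩
    have h1 : (∑ n ∈ J k.1 k.2, h n * μ n) / ∑ n ∈ J k.1 k.2, μ n =
        av Ω μ h (cell θ k.1) n := by
      unfold av
      rw [hf]
    rw [h1]
    calc av Ω μ h (cell θ k.1) n ^ q ≤ m θ n ^ q := by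
          apply Real.rpow_le_rpow (av_nonneg Ω μ h hμ hh _ n) _ (by linarith)
          exact hm1 θ n k.1 (Finset.le_sup (f := fun k : ℕ × ℤ => k.1) hk)
      _ ≤ ∑ θ : Fin 3, m θ n ^ q :=
          Finset.single_le_sum (f := fun θ : Fin 3 => m θ n ^ q)
            (fun θ _ => Real.rpow_nonneg (hm0 θ n) q) (mem_univ θ)
  calc ∑ k ∈ F, ((∑ n ∈ J k.1 k.2, h n * μ n) / ∑ n ∈ J k.1 k.2, μ n) ^ q * ∑ n ∈ E k, μ n
      ≤ ∑ k ∈ F, ∑ n ∈ E k, (∑ θ : Fin 3, m θ n ^ q) * μ n := sum_le_sum e2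
    _ = ∑ n ∈ F.biUnion E, (∑ θ : Fin 3, m θ n ^ q) * μ n := by
        rw [sum_biUnion]
        intro k hk k' hk' hne
        exact hS.disj k hk k' hk' hne
    _ ≤ ∑ n ∈ Ω, (∑ θ : Fin 3, m θ n ^ q) * μ n := by
        apply sum_le_sum_of_subset_of_nonneg (biUnion_subset.2 hE)
        intro n _ _
        exact mul_nonneg (sum_nonneg fun θ _ => Real.rpow_nonneg (hm0 θ n) q) (hμ n).le
    _ = ∑ θ : Fin 3, ∑ n ∈ Ω, m θ n ^ q * μ n := by
        rw [sum_comm]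
        apply sum_congr rfl
        intro n _
        rw [sum_mul]
    _ ≤ ∑ θ : Fin 3, 2 * (2 ^ (q - 1)) ^ q / (q - 1) * ∑ n ∈ Ω, h n ^ q * μ n :=
        sum_le_sum fun θ _ => hm2 θ
    _ = 3 * (2 * (2 ^ (q - 1)) ^ q / (q - 1)) * ∑ n ∈ U, h n ^ q * μ n := by
        rw [e1, sum_const, card_univ, Fintype.card_fin, nsmul_eq_mul]
        push_cast
        ring

end Pool.Agent.V8H63.AP
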