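import Pool.Agent.V8H55.AP.Ker

/-!
# From sparse domination to the weighted bound of the discrete Hilbert form
-/

set_option autoImplicit false

open Finset Filter

namespace Pool.Agent.V8H63.AP

open Pool.Agent.V8H55.AP

theorem lam_one (f g : ℤ → ℝ) (U : Finset ℤ) (hg : ∀ n ∉ U, g n = 0) (S : ℕ) (j : ℤ) :
    Lam f g S j = ∑ n ∈ I S j, ∑ m ∈ U, f n * g m * T S (m - n) := by
  classical
  unfold Lam
  apply sum_congr rfl
  intro n hn
  have h1 : ∑ m ∈ J S j, f n * g m * T S (m - n) = ∑ m ∈ J S j ∪ U, f n * g m * T S (m - n) := by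
    apply sum_subset subset_union_left
    intro m _ hm
    rw [T_far, mul_zero]
    by_contra h
    exact hm (mem_J_of_near hn (not_le.1 h))
  have h2 : ∑ m ∈ U, f n * g m * T S (m - n) = ∑ m ∈ J S j ∪ U, f n * g m * T S (m - n) := by
    apply sum_subset subset_union_right
    intro m _ hm
    rw [hg m hm]; ring
  rw [h1, h2]

theorem lam_sum (f g : ℤ → ℝ) (U : Finset ℤ) (hf : ∀ n ∉ U, f n = 0) (hg : ∀ n ∉ U, g n = 0)
    (S : ℕ) (hU : ∀ n ∈ U, 2 * |n| < 2 ^ S) :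
    Lam f g S (-1) + Lam f g S 0 = ∑ n ∈ U, ∑ m ∈ U, f n * g m * T S (m - n) := by
  classical
  rw [lam_one f g U hg, lam_one f g U hg]
  have h0 : (0 : ℤ) < 2 ^ S := by positivity
  have hd : Disjoint (I S (-1)) (I S 0) := by
    rw [disjoint_left]
    intro n h1 h2
    rw [mem_I] at h1 h2
    omega
  rw [← sum_union hd]
  symm
  apply sum_subset
  · intro n hn
    rw [mem_union]
    have h1 := hU n hn
    unfold I
    rw [mem_Ico, mem_Ico]
    rcases abs_cases n with ⟨h2, h3⟩ | ⟨h2, h3⟩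
    · right
      constructor
      · linarith
      · linarith
    · left
      constructor
      · linarith
      · linarith
  · intro n _ hn
    apply sum_eq_zero
    intro m _
    rw [hf n hn]; ring

theorem dform_of (h1 : SparseDom) (h2 : WSparse) : DForm := by
  classical
  intro p K hp hK
  obtain ⟨C1, hC1, H1⟩ := h1
  obtain ⟨C2, hC2, H2⟩ := h2 p K hp hK
  refine ⟨2 * (C1 * C2), by positivity, ?_⟩
  intro w hw hA U f g hf hg
  set f' : ℤ → ℝ := fun n => if n ∈ U then f n else 0 with hf'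
  set g' : ℤ → ℝ := fun n => if n ∈ U then g n else 0 with hg'
  have f1 : ∀ n, 0 ≤ f' n := by
    intro n; rw [hf']; dsimp only; split_ifs; exacts [hf n, le_rfl]
  have g1 : ∀ n, 0 ≤ g' n := by
    intro n; rw [hg']; dsimp only; split_ifs; exacts [hg n, le_rfl]
  have f2 : ∀ n ∉ U, f' n = 0 := by
    intro n hn; rw [hf']; exact if_neg hn
  have g2 : ∀ n ∉ U, g' n = 0 := by
    intro n hn; rw [hg']; exact if_neg hn
  have f3 : ∀ n ∈ U, f' n = f n := by
    intro n hn; rw [hf']; exact if_pos hn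
  have g3 : ∀ n ∈ U, g' n = g n := by
    intro n hn; rw [hg']; exact if_pos hn
  set X := (∑ n ∈ U, f n ^ p * w n) ^ (1 / p) with hX
  set Y := (∑ n ∈ U, g n ^ (p / (p - 1)) * w n ^ (-(1 / (p - 1)))) ^ (1 - 1 / p) with hY
  have eX : (∑ n ∈ U, f' n ^ p * w n) ^ (1 / p) = X := by
    rw [hX]; congr 1
    exact sum_congr rfl fun n hn => by rw [f3 n hn]
  have eY : (∑ n ∈ U, g' n ^ (p / (p - 1)) * w n ^ (-(1 / (p - 1)))) ^ (1 - 1 / p) = Y := by
    rw [hY]; congr 1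
    exact sum_congr rfl fun n hn => by rw [g3 n hn]
  have key : ∀ (S : ℕ) (j : ℤ), |Lam f' g' S j| ≤ C1 * (C2 * X * Y) := by
    intro S j
    obtain ⟨F, E, hS, hb⟩ := H1 f' g' f1 g1 S j
    refine hb.trans (mul_le_mul_of_nonneg_left ?_ hC1)
    have := H2 w hw hA f' g' f1 g1 F E hS U f2 g2
    rw [eX, eY] at this
    exact this
  -- the scale
  obtain ⟨S0, hS0⟩ : ∃ S0 : ℕ, ∀ S ≥ S0, ∀ n ∈ U, 2 * |n| < (2 : ℤ) ^ S := by
    refine ⟨(∑ n ∈ U, n.natAbs) + 1, fun S hS n hn => ?_⟩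
    have a1 : n.natAbs ≤ ∑ n ∈ U, n.natAbs :=
      Finset.single_le_sum (f := fun n : ℤ => n.natAbs) (fun _ _ => Nat.zero_le _) hn
    have a2 : n.natAbs < 2 ^ n.natAbs := Nat.lt_two_pow_self
    have a3 : 2 ^ (n.natAbs + 1) ≤ 2 ^ S := Nat.pow_le_pow_right (by norm_num) (by omega)
    have a4 : 2 * n.natAbs < 2 ^ S := by
      rw [pow_succ] at a3; omega
    have a5 : ((2 * n.natAbs : ℕ) : ℤ) < ((2 ^ S : ℕ) : ℤ) := by exact_mod_cast a4
    rw [Int.abs_eq_natAbs]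
    push_cast at a5
    push_cast
    exact a5
  have hT : ∀ S ≥ S0, |(∑ n ∈ U, ∑ m ∈ U, f n * g m * ((m - n : ℤ) : ℝ)⁻¹) -
      (∑ n ∈ U, ∑ m ∈ U, f n * g m * ((m - n : ℤ) : ℝ)) * (1 / 4) ^ S| ≤
      2 * (C1 * (C2 * X * Y)) := by
    intro S hS
    have e := lam_sum f' g' U f2 g2 S (hS0 S hS)
    have e2 : ∑ n ∈ U, ∑ m ∈ U, f' n * g' m * T S (m - n) =
        (∑ n ∈ U, ∑ m ∈ U, f n * g m * ((m - n : ℤ) : ℝ)⁻¹) -
      (∑ n ∈ U, ∑ m ∈ U, f n * g m * ((m - n : ℤ) : ℝ)) * (1 / 4) ^ S := by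
      rw [sum_mul, ← sum_sub_distrib]
      apply sum_congr rfl
      intro n hn
      rw [sum_mul, ← sum_sub_distrib]
      apply sum_congr rfl
      intro m hm
      rw [f3 n hn, g3 m hm]
      have b1 := hS0 S hS n hn
      have b2 := hS0 S hS m hm
      have b3 : |m - n| < 2 ^ S := by
        have := abs_sub m n
        linarith
      have b4 : T S (m - n) = ((m - n : ℤ) : ℝ)⁻¹ - ((m - n : ℤ) : ℝ) / 4 ^ S := by
        unfold T; rw [if_pos b3]
      rw [b4, one_div, inv_pow]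
      ring
    rw [← e2, ← e]
    calc |Lam f' g' S (-1) + Lam f' g' S 0| ≤ |Lam f' g' S (-1)| + |Lam f' g' S 0| := abs_add_le _ _
      _ ≤ 2 * (C1 * (C2 * X * Y)) := by
        have := key S (-1)
        have := key S 0
        linarith
  have hlim : Tendsto (fun S : ℕ => |(∑ n ∈ U, ∑ m ∈ U, f n * g m * ((m - n : ℤ) : ℝ)⁻¹) -
      (∑ n ∈ U, ∑ m ∈ U, f n * g m * ((m - n : ℤ) : ℝ)) * (1 / 4) ^ S|) atTop
      (nhds |(∑ n ∈ U, ∑ m ∈ U, f n * g m * ((m - n : ℤ) : ℝ)⁻¹) -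
      (∑ n ∈ U, ∑ m ∈ U, f n * g m * ((m - n : ℤ) : ℝ)) * 0|) := by
    apply Tendsto.abs
    apply Tendsto.const_sub
    apply Tendsto.const_mul
    exact tendsto_pow_atTop_nhds_zero_of_lt_one (by norm_num) (by norm_num)
  rw [mul_zero, sub_zero] at hlim
  have := le_of_tendsto hlim (eventually_atTop.2 ⟨S0, hT⟩)
  calc _ ≤ _ := this
    _ = 2 * (C1 * C2) * X * Y := by ring

end Pool.Agent.V8H63.AP
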