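import Pool.Agent.V8H55.AP.Stm

/-!
# From the bilinear form to the operator
-/

set_option autoImplicit false

open Finset

namespace Pool.Agent.V8H63.AP

open Pool.Agent.V8H55.AP

theorem dop_of (h : DForm) : DOp := by
  intro p K hp hK
  obtain ⟨C, hC, H⟩ := h p K hp hK
  refine ⟨(4 * C) ^ p, by positivity, ?_⟩
  intro w hw hA U f
  have hp0 : 0 < p := by linarith
  have hp1 : 0 < p - 1 := by linarith
  set x : ℤ → ℝ := fun m => ∑ n ∈ U, f n * ((m - n : ℤ) : ℝ)⁻¹ with hx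
  set X := ∑ m ∈ U, |x m| ^ p * w m with hX
  set F := ∑ n ∈ U, |f n| ^ p * w n with hF
  have hF0 : 0 ≤ F := sum_nonneg fun n _ => mul_nonneg (Real.rpow_nonneg (abs_nonneg _) _) (hw n).le
  have hX0 : 0 ≤ X := sum_nonneg fun n _ => mul_nonneg (Real.rpow_nonneg (abs_nonneg _) _) (hw n).le
  set g : ℤ → ℝ := fun m => |x m| ^ (p - 1) * w m with hg
  have g0 : ∀ m, 0 ≤ g m := fun m => mul_nonneg (Real.rpow_nonneg (abs_nonneg _) _) (hw m).le
  set fp : ℤ → ℝ := fun n => max (f n) 0 with hfp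
  set fm : ℤ → ℝ := fun n => max (-f n) 0 with hfm
  set gp : ℤ → ℝ := fun m => if 0 < x m then g m else 0 with hgp
  set gm : ℤ → ℝ := fun m => if 0 < x m then 0 else g m with hgm
  have fp0 : ∀ n, 0 ≤ fp n := fun n => le_max_right _ _
  have fm0 : ∀ n, 0 ≤ fm n := fun n => le_max_right _ _
  have gp0 : ∀ n, 0 ≤ gp n := by
    intro n; rw [hgp]; dsimp only; split_ifs; exacts [g0 n, le_rfl]
  have gm0 : ∀ n, 0 ≤ gm n := by
    intro n; rw [hgm]; dsimp only; split_ifs; exacts [le_rfl, g0 n]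
  have fp1 : ∀ n, fp n ≤ |f n| := fun n => max_le (le_abs_self _) (abs_nonneg _)
  have fm1 : ∀ n, fm n ≤ |f n| := fun n => max_le (neg_le_abs _) (abs_nonneg _)
  have gp1 : ∀ n, gp n ≤ g n := by
    intro n; rw [hgp]; dsimp only; split_ifs; exacts [le_rfl, g0 n]
  have gm1 : ∀ n, gm n ≤ g n := by
    intro n; rw [hgm]; dsimp only; split_ifs; exacts [g0 n, le_rfl]
  have f2 : ∀ n, f n = fp n - fm n := by
    intro n
    rw [hfp, hfm]
    dsimp only
    rcases le_total 0 (f n) with h | h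
    · rw [max_eq_left h, max_eq_right (by linarith)]; ring
    · rw [max_eq_right h, max_eq_left (by linarith)]; ring
  have x2 : ∀ m, |x m| ^ p * w m = x m * (gp m - gm m) := by
    intro m
    have e : |x m| ^ p = |x m| * |x m| ^ (p - 1) := by
      rcases (abs_nonneg (x m)).eq_or_lt with h0 | h0
      · rw [← h0, zero_mul, Real.zero_rpow (by linarith)]
      · rw [mul_comm, ← Real.rpow_add_one h0.ne']
        congr 1; ring
    rw [e, hgp, hgm]
    dsimp only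
    rw [hg]
    dsimp only
    split_ifs with h
    · rw [abs_of_pos h]; ring
    · rw [abs_of_nonpos (not_lt.1 h)]; ring
  -- the norms
  have nf : ∀ u : ℤ → ℝ, (∀ n, 0 ≤ u n) → (∀ n, u n ≤ |f n|) →
      (∑ n ∈ U, u n ^ p * w n) ^ (1 / p) ≤ F ^ (1 / p) := by
    intro u u0 u1
    apply Real.rpow_le_rpow (sum_nonneg fun n _ => mul_nonneg (Real.rpow_nonneg (u0 n) _) (hw n).le)
      _ (by positivity)
    exact sum_le_sum fun n _ => mul_le_mul_of_nonneg_right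
      (Real.rpow_le_rpow (u0 n) (u1 n) hp0.le) (hw n).le
  have ng : ∀ u : ℤ → ℝ, (∀ n, 0 ≤ u n) → (∀ n, u n ≤ g n) →
      (∑ n ∈ U, u n ^ (p / (p - 1)) * w n ^ (-(1 / (p - 1)))) ^ (1 - 1 / p) ≤ X ^ (1 - 1 / p) := by
    intro u u0 u1
    have hq : 0 ≤ 1 - 1 / p := by
      have : 1 / p ≤ 1 := by rw [div_le_one hp0]; linarith
      linarith
    apply Real.rpow_le_rpow (sum_nonneg fun n _ => mul_nonneg (Real.rpow_nonneg (u0 n) _)
      (Real.rpow_nonneg (hw n).le _)) _ hq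
    apply sum_le_sum
    intro n _
    have e1 : g n ^ (p / (p - 1)) * w n ^ (-(1 / (p - 1))) = |x n| ^ p * w n := by
      rw [hg]
      dsimp only
      rw [Real.mul_rpow (Real.rpow_nonneg (abs_nonneg _) _) (hw n).le, ← Real.rpow_mul (abs_nonneg _),
        mul_assoc, ← Real.rpow_add (hw n)]
      have e2 : (p - 1) * (p / (p - 1)) = p := by field_simp
      have e3 : p / (p - 1) + -(1 / (p - 1)) = 1 := by field_simp; ring
      rw [e2, e3, Real.rpow_one]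
    rw [← e1]
    exact mul_le_mul_of_nonneg_right (Real.rpow_le_rpow (u0 n) (u1 n) (by positivity))
      (Real.rpow_nonneg (hw n).le _)
  have B : ∀ u v : ℤ → ℝ, (∀ n, 0 ≤ u n) → (∀ n, u n ≤ |f n|) → (∀ n, 0 ≤ v n) → (∀ n, v n ≤ g n) →
      |∑ n ∈ U, ∑ m ∈ U, u n * v m * ((m - n : ℤ) : ℝ)⁻¹| ≤ C * F ^ (1 / p) * X ^ (1 - 1 / p) := by
    intro u v u0 u1 v0 v1
    refine (H w hw hA U u v u0 v0).trans ?_
    have a1 := nf u u0 u1
    have a2 := ng v v0 v1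
    have a3 : 0 ≤ (∑ n ∈ U, v n ^ (p / (p - 1)) * w n ^ (-(1 / (p - 1)))) ^ (1 - 1 / p) :=
      Real.rpow_nonneg (sum_nonneg fun n _ => mul_nonneg (Real.rpow_nonneg (v0 n) _)
      (Real.rpow_nonneg (hw n).le _)) _
    have a4 : 0 ≤ F ^ (1 / p) := Real.rpow_nonneg hF0 _
    gcongr
  have key : X ≤ 4 * C * F ^ (1 / p) * X ^ (1 - 1 / p) := by
    have e : X = (∑ n ∈ U, ∑ m ∈ U, fp n * gp m * ((m - n : ℤ) : ℝ)⁻¹)
        - (∑ n ∈ U, ∑ m ∈ U, fp n * gm m * ((m - n : ℤ) : ℝ)⁻¹)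
        - (∑ n ∈ U, ∑ m ∈ U, fm n * gp m * ((m - n : ℤ) : ℝ)⁻¹)
        + (∑ n ∈ U, ∑ m ∈ U, fm n * gm m * ((m - n : ℤ) : ℝ)⁻¹) := by
      have e1 : X = ∑ m ∈ U, ∑ n ∈ U, (fp n * gp m * ((m - n : ℤ) : ℝ)⁻¹
          - fp n * gm m * ((m - n : ℤ) : ℝ)⁻¹ - fm n * gp m * ((m - n : ℤ) : ℝ)⁻¹
          + fm n * gm m * ((m - n : ℤ) : ℝ)⁻¹) := by
        rw [hX]
        apply sum_congr rfl
        intro m _
        rw [x2 m, hx]
        dsimp only
        rw [sum_mul]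
        apply sum_congr rfl
        intro n _
        rw [f2 n]
        ring
      rw [e1, sum_comm]
      simp only [sum_add_distrib, sum_sub_distrib]
    have b1 := B fp gp fp0 fp1 gp0 gp1
    have b2 := B fp gm fp0 fp1 gm0 gm1
    have b3 := B fm gp fm0 fm1 gp0 gp1
    have b4 := B fm gm fm0 fm1 gm0 gm1
    rw [abs_le] at b1 b2 b3 b4
    rw [e]
    rw [← e]
    linarith [b1.1, b1.2, b2.1, b2.2, b3.1, b3.2, b4.1, b4.2]
  rcases hX0.eq_or_lt with h0 | h0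
  · rw [← h0]
    positivity
  · have e1 : X = X ^ (1 / p) * X ^ (1 - 1 / p) := by
      rw [← Real.rpow_add h0]
      rw [show 1 / p + (1 - 1 / p) = 1 by ring, Real.rpow_one]
    have h1 : X ^ (1 / p) ≤ 4 * C * F ^ (1 / p) := by
      have h2 : 0 < X ^ (1 - 1 / p) := Real.rpow_pos_of_pos h0 _
      have h3 : X ^ (1 / p) * X ^ (1 - 1 / p) ≤ 4 * C * F ^ (1 / p) * X ^ (1 - 1 / p) := by
        rw [← e1]; exact key
      exact le_of_mul_le_mul_right h3 h2
    have h4 : (X ^ (1 / p)) ^ p ≤ (4 * C * F ^ (1 / p)) ^ p :=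
      Real.rpow_le_rpow (Real.rpow_nonneg hX0 _) h1 hp0.le
    rw [← Real.rpow_mul hX0, Real.mul_rpow (by positivity) (Real.rpow_nonneg hF0 _),
      ← Real.rpow_mul hF0, one_div_mul_cancel hp0.ne', Real.rpow_one, Real.rpow_one] at h4
    exact h4

end Pool.Agent.V8H63.AP
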