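import Mathlib

/-!
# Doob's maximal inequality for nested partitions of a finite set
-/

set_option autoImplicit false

open Finset

namespace Pool.Agent.V8H63.AP

/-- The function of the pathwise argument. -/
noncomputable def G (q x m : ℝ) : ℝ := (q - 1) / q * m ^ q - x * m ^ (q - 1)

theorem young (q x m : ℝ) (hq : 1 < q) (hx : 0 ≤ x) (hm : 0 ≤ m) :
    x * m ^ (q - 1) ≤ x ^ q / q + (q - 1) / q * m ^ q := by
  have h := Real.young_inequality_of_nonneg hx (Real.rpow_nonneg hm (q - 1))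
    (Real.HolderConjugate.conjExponent hq)
  have h1 : (m ^ (q - 1)) ^ q.conjExponent = m ^ q := by
    rw [← Real.rpow_mul hm]
    congr 1
    unfold Real.conjExponent
    have : q - 1 ≠ 0 := by linarith
    field_simp
  rw [h1] at h
  have h2 : m ^ q / q.conjExponent = (q - 1) / q * m ^ q := by
    unfold Real.conjExponent
    have : q - 1 ≠ 0 := by linarith
    have : q ≠ 0 := by linarith
    field_simp
  rw [h2] at h
  exact h

theorem G_max (q x m : ℝ) (hq : 1 < q) (hx : 0 ≤ x) (hm : 0 ≤ m) :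
    G q x (max m x) ≤ G q x m := by
  rcases le_total x m with h | h
  · rw [max_eq_left h]
  · rw [max_eq_right h]
    unfold G
    have h1 := young q x m hq hx hm
    have h2 : x * x ^ (q - 1) = x ^ q := by
      rcases hx.eq_or_lt with h0 | h0
      · rw [← h0, zero_mul, Real.zero_rpow (by linarith)]
      · rw [mul_comm, ← Real.rpow_add_one h0.ne']
        congr 1; ring
    rw [h2]
    have h3 : (q - 1) / q * x ^ q - x ^ q = - (x ^ q / q) := by
      have : q ≠ 0 := by linarith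
      field_simp
      ring
    linarith

theorem G_lower (q x m : ℝ) (hq : 1 < q) (hx : 0 ≤ x) (hm : 0 ≤ m) :
    (q - 1) / q / 2 * m ^ q - (2 ^ (q - 1)) ^ q / q * x ^ q ≤ G q x m := by
  have h := young q (2 ^ (q - 1) * x) (m / 2) hq (by positivity) (by positivity)
  unfold G
  have h1 : 2 ^ (q - 1) * x * (m / 2) ^ (q - 1) = x * m ^ (q - 1) := by
    rw [Real.div_rpow hm (by norm_num)]
    have : (2 : ℝ) ^ (q - 1) ≠ 0 := by positivity
    field_simp
  have h2 : (2 ^ (q - 1) * x) ^ q = (2 ^ (q - 1)) ^ q * x ^ q :=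
    Real.mul_rpow (by positivity) hx
  have h3 : (m / 2) ^ q ≤ m ^ q / 2 := by
    rw [Real.div_rpow hm (by norm_num)]
    apply div_le_div_of_nonneg_left (by positivity) (by norm_num)
    calc (2 : ℝ) = 2 ^ (1 : ℝ) := by rw [Real.rpow_one]
      _ ≤ 2 ^ q := Real.rpow_le_rpow_of_exponent_le (by norm_num) hq.le
  rw [h1, h2] at h
  have h4 : (q - 1) / q * (m / 2) ^ q ≤ (q - 1) / q * (m ^ q / 2) :=
    mul_le_mul_of_nonneg_left h3 (div_nonneg (by linarith) (by linarith))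
  have h5 : (2 ^ (q - 1)) ^ q / q * x ^ q = (2 ^ (q - 1)) ^ q * x ^ q / q := by ring
  rw [h5]
  linarith

/-- The average over the class of `n`. -/
noncomputable def av (Ω : Finset ℤ) (μ h : ℤ → ℝ) (r : ℤ → ℤ) (n : ℤ) : ℝ :=
  (∑ i ∈ Ω with r i = r n, h i * μ i) / ∑ i ∈ Ω with r i = r n, μ i

theorem av_nonneg (Ω : Finset ℤ) (μ h : ℤ → ℝ) (hμ : ∀ n, 0 < μ n) (hh : ∀ n, 0 ≤ h n)
    (r : ℤ → ℤ) (n : ℤ) : 0 ≤ av Ω μ h r n :=
  div_nonneg (sum_nonneg fun i _ => mul_nonneg (hh i) (hμ i).le)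
    (sum_nonneg fun i _ => (hμ i).le)

theorem av_congr (Ω : Finset ℤ) (μ h : ℤ → ℝ) (r : ℤ → ℤ) (n n' : ℤ) (e : r n = r n') :
    av Ω μ h r n = av Ω μ h r n' := by
  unfold av; rw [e]

theorem av_mart (Ω : Finset ℤ) (μ h : ℤ → ℝ) (hμ : ∀ n, 0 < μ n)
    (r : ℤ → ℤ) (c : ℤ → ℝ) (hc : ∀ n n', r n = r n' → c n = c n') :
    ∑ n ∈ Ω, av Ω μ h r n * c n * μ n = ∑ n ∈ Ω, h n * c n * μ n := by
  classical
  rw [← Finset.sum_fiberwise_of_maps_to (s := Ω) (t := Ω.image r) (g := r)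
    (fun i hi => mem_image_of_mem r hi) (fun n => av Ω μ h r n * c n * μ n),
    ← Finset.sum_fiberwise_of_maps_to (s := Ω) (t := Ω.image r) (g := r)
    (fun i hi => mem_image_of_mem r hi) (fun n => h n * c n * μ n)]
  apply sum_congr rfl
  intro y hy
  obtain ⟨n0, hn0, rfl⟩ := mem_image.1 hy
  have h1 : ∀ n ∈ Ω.filter (fun i => r i = r n0), av Ω μ h r n * c n * μ n =
      av Ω μ h r n0 * c n0 * μ n := by
    intro n hn
    have e := (mem_filter.1 hn).2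
    rw [av_congr Ω μ h r n n0 e, hc n n0 e]
  have h2 : ∀ n ∈ Ω.filter (fun i => r i = r n0), h n * c n * μ n =
      c n0 * (h n * μ n) := by
    intro n hn
    have e := (mem_filter.1 hn).2
    rw [hc n n0 e]; ring
  rw [sum_congr rfl h1, sum_congr rfl h2, ← mul_sum, ← mul_sum]
  unfold av
  have h3 : 0 < ∑ i ∈ Ω with r i = r n0, μ i :=
    sum_pos (fun i _ => hμ i) ⟨n0, mem_filter.2 ⟨hn0, rfl⟩⟩
  field_simp

theorem doob_aux (q : ℝ) (hq : 1 < q) (Ω : Finset ℤ) (μ h : ℤ → ℝ) (hμ : ∀ n, 0 < μ n)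
    (hh : ∀ n, 0 ≤ h n) (r φ : ℕ → ℤ → ℤ) (hr : ∀ s n, r (s + 1) n = φ s (r s n)) (N : ℕ) :
    ∀ t s : ℕ, s + t = N → ∃ m : ℤ → ℝ, (∀ n n', r s n = r s n' → m n = m n') ∧ (∀ n, 0 ≤ m n) ∧
      (∀ n, ∀ s', s ≤ s' → s' ≤ N → av Ω μ h (r s') n ≤ m n) ∧
      ∑ n ∈ Ω, G q (av Ω μ h (r s) n) (m n) * μ n ≤ 0 := by
  intro t
  induction t with
  | zero =>
    intro s hs
    refine ⟨av Ω μ h (r s), fun n n' e => av_congr Ω μ h _ n n' e,
      fun n => av_nonneg Ω μ h hμ hh _ n, fun n s' h1 h2 => ?_, ?_⟩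
    · have : s' = s := by omega
      rw [this]
    · apply sum_nonpos
      intro n _
      apply mul_nonpos_of_nonpos_of_nonneg _ (hμ n).le
      have h0 := av_nonneg Ω μ h hμ hh (r s) n
      calc G q (av Ω μ h (r s) n) (av Ω μ h (r s) n)
          = G q (av Ω μ h (r s) n) (max 0 (av Ω μ h (r s) n)) := by rw [max_eq_right h0]
        _ ≤ G q (av Ω μ h (r s) n) 0 := G_max q _ _ hq h0 le_rfl
        _ = 0 := by
          unfold G
          rw [Real.zero_rpow (by linarith), Real.zero_rpow (by linarith)]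
          ring
  | succ t ih =>
    intro s hs
    obtain ⟨m, h1, h2, h3, h4⟩ := ih (s + 1) (by omega)
    have hc : ∀ n n', r s n = r s n' → m n = m n' := by
      intro n n' e
      apply h1
      rw [hr, hr, e]
    refine ⟨fun n => max (m n) (av Ω μ h (r s) n), ?_, ?_, ?_, ?_⟩
    · intro n n' e
      show max _ _ = max _ _
      rw [hc n n' e, av_congr Ω μ h _ n n' e]
    · intro n
      exact le_max_of_le_left (h2 n)
    · intro n s' h5 h6
      rcases h5.eq_or_lt with h7 | h7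
      · rw [← h7]; exact le_max_right _ _
      · exact (h3 n s' (by omega) h6).trans (le_max_left _ _)
    · have e1 : ∑ n ∈ Ω, G q (av Ω μ h (r s) n) (max (m n) (av Ω μ h (r s) n)) * μ n ≤
          ∑ n ∈ Ω, G q (av Ω μ h (r s) n) (m n) * μ n :=
        sum_le_sum fun n _ => mul_le_mul_of_nonneg_right
          (G_max q _ _ hq (av_nonneg Ω μ h hμ hh _ n) (h2 n)) (hμ n).le
      have e2 : ∀ r' : ℤ → ℤ, ∑ n ∈ Ω, G q (av Ω μ h r' n) (m n) * μ n =
          ∑ n ∈ Ω, (q - 1) / q * m n ^ q * μ n -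
            ∑ n ∈ Ω, av Ω μ h r' n * m n ^ (q - 1) * μ n := by
        intro r'
        rw [← sum_sub_distrib]
        apply sum_congr rfl
        intro n _
        unfold G; ring
      have e3 := av_mart Ω μ h hμ (r s) (fun n => m n ^ (q - 1))
        (fun n n' e => by rw [hc n n' e])
      have e4 := av_mart Ω μ h hμ (r (s + 1)) (fun n => m n ^ (q - 1))
        (fun n n' e => by rw [h1 n n' e])
      rw [e2] at e1 h4
      rw [e3] at e1
      rw [e4] at h4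
      exact e1.trans h4

/-- Doob's inequality. -/
theorem doob (q : ℝ) (hq : 1 < q) (Ω : Finset ℤ) (μ h : ℤ → ℝ) (hμ : ∀ n, 0 < μ n)
    (hh : ∀ n, 0 ≤ h n) (r φ : ℕ → ℤ → ℤ) (hr : ∀ s n, r (s + 1) n = φ s (r s n)) (N : ℕ) :
    ∃ m : ℤ → ℝ, (∀ n, 0 ≤ m n) ∧ (∀ n, ∀ s ≤ N, av Ω μ h (r s) n ≤ m n) ∧
      ∑ n ∈ Ω, m n ^ q * μ n ≤ 2 * (2 ^ (q - 1)) ^ q / (q - 1) * ∑ n ∈ Ω, h n ^ q * μ n := by
  obtain ⟨m, h1, h2, h3, h4⟩ := doob_aux q hq Ω μ h hμ hh r φ hr N N 0 (by omega)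
  refine ⟨m, h2, fun n s hs => h3 n s (Nat.zero_le _) hs, ?_⟩
  have e2 : ∀ x : ℤ → ℝ, ∑ n ∈ Ω, G q (x n) (m n) * μ n =
      ∑ n ∈ Ω, (q - 1) / q * m n ^ q * μ n - ∑ n ∈ Ω, x n * m n ^ (q - 1) * μ n := by
    intro x
    rw [← sum_sub_distrib]
    apply sum_congr rfl
    intro n _
    unfold G; ring
  have e3 := av_mart Ω μ h hμ (r 0) (fun n => m n ^ (q - 1))
    (fun n n' e => by rw [h1 n n' e])
  rw [e2, e3, ← e2] at h4
  have e5 : ∑ n ∈ Ω, ((q - 1) / q / 2 * m n ^ q - (2 ^ (q - 1)) ^ q / q * h n ^ q) * μ n ≤ 0 :=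
    (sum_le_sum fun n _ => mul_le_mul_of_nonneg_right
      (G_lower q (h n) (m n) hq (hh n) (h2 n)) (hμ n).le).trans h4
  have e6 : ∑ n ∈ Ω, ((q - 1) / q / 2 * m n ^ q - (2 ^ (q - 1)) ^ q / q * h n ^ q) * μ n =
      (q - 1) / q / 2 * ∑ n ∈ Ω, m n ^ q * μ n -
        (2 ^ (q - 1)) ^ q / q * ∑ n ∈ Ω, h n ^ q * μ n := by
    rw [mul_sum, mul_sum, ← sum_sub_distrib]
    apply sum_congr rfl
    intro n _
    ring
  rw [e6] at e5
  have hq0 : 0 < q := by linarith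
  have hq1 : 0 < q - 1 := by linarith
  set X := ∑ n ∈ Ω, m n ^ q * μ n
  set Y := ∑ n ∈ Ω, h n ^ q * μ n
  have e7 : (q - 1) / q / 2 * X ≤ (2 ^ (q - 1)) ^ q / q * Y := by linarith
  have e8 : X = 2 * q / (q - 1) * ((q - 1) / q / 2 * X) := by field_simp
  have e9 : 2 * (2 ^ (q - 1)) ^ q / (q - 1) * Y = 2 * q / (q - 1) * ((2 ^ (q - 1)) ^ q / q * Y) := by
    field_simp
  rw [e8, e9]
  exact mul_le_mul_of_nonneg_left e7 (by positivity)

end Pool.Agent.V8H63.AP
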